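import Pool.Agent.Helper51.PF.Goals

/-! Packet PF-SEQ: sampling without replacement. -/

set_option autoImplicit false

namespace Pool.Agent.Helper86.PF

open Finset
open Pool.Agent.Helper51.PF

/-- a permutation with two given values which fixes everything outside `Q` -/
theorem exists_perm {n : ℕ} {Q : Finset (Fin n)} {u w a b : Fin n} (hu : u ∈ Q) (hw : w ∈ Q)
    (ha : a ∈ Q) (hb : b ∈ Q) (huw : u ≠ w) (hab : a ≠ b) :
    ∃ ρ : Equiv.Perm (Fin n), ρ u = a ∧ ρ w = b ∧ ∀ x, x ∉ Q → ρ x = x := by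
  have hρb : Equiv.swap u a b ∈ Q := by
    by_cases h1 : b = u
    · rw [h1, Equiv.swap_apply_left]
      exact ha
    · rw [Equiv.swap_apply_of_ne_of_ne h1 (Ne.symm hab)]
      exact hb
  refine ⟨Equiv.swap u a * Equiv.swap w (Equiv.swap u a b), ?_, ?_, ?_⟩
  · have h1 : u ≠ Equiv.swap u a b := by
      intro h
      have h2 := congrArg (Equiv.swap u a) h
      rw [Equiv.swap_apply_self, Equiv.swap_apply_left] at h2
      exact hab h2
    rw [Equiv.Perm.mul_apply, Equiv.swap_apply_of_ne_of_ne huw h1, Equiv.swap_apply_left]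
  · rw [Equiv.Perm.mul_apply, Equiv.swap_apply_left, Equiv.swap_apply_self]
  · intro x hx
    have h1 : x ≠ w := fun h => hx (h ▸ hw)
    have h2 : x ≠ Equiv.swap u a b := fun h => hx (h ▸ hρb)
    have h3 : x ≠ u := fun h => hx (h ▸ hu)
    have h4 : x ≠ a := fun h => hx (h ▸ ha)
    rw [Equiv.Perm.mul_apply, Equiv.swap_apply_of_ne_of_ne h1 h2,
      Equiv.swap_apply_of_ne_of_ne h3 h4]

theorem mem_cls {n : ℕ} {τ0 τ : Equiv.Perm (Fin n)} {D : Finset (Fin n)} :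
    τ ∈ cls τ0 D ↔ ∀ x ∈ D, τ x = τ0 x := by
  unfold cls
  rw [Finset.mem_filter]
  exact ⟨fun h => h.2, fun h => ⟨Finset.mem_univ _, h⟩⟩

theorem exch {n : ℕ} {Q D : Finset (Fin n)} (τ0 : Equiv.Perm (Fin n)) {u w a b : Fin n}
    (F : Equiv.Perm (Fin n) → ℝ) (f : Fin n → Fin n → ℝ)
    (hD : ∀ x ∈ D, x ∉ Q) (hF : ∀ τ ρ : Equiv.Perm (Fin n), (∀ x, x ∉ Q → ρ x = x) →
      F (τ * ρ) = F τ)
    (hu : u ∈ Q) (hw : w ∈ Q) (ha : a ∈ Q) (hb : b ∈ Q) (huw : u ≠ w) (hab : a ≠ b) :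
    ∑ τ ∈ cls τ0 D, F τ * f (τ a) (τ b) = ∑ τ ∈ cls τ0 D, F τ * f (τ u) (τ w) := by
  obtain ⟨ρ, h1, h2, h3⟩ := exists_perm hu hw ha hb huw hab
  refine Finset.sum_equiv (Equiv.mulRight ρ) ?_ ?_
  · intro τ
    rw [mem_cls, mem_cls]
    refine forall_congr' fun x => forall_congr' fun hx => ?_
    rw [Equiv.coe_mulRight, Equiv.Perm.mul_apply, h3 x (hD x hx)]
  · intro τ _
    rw [Equiv.coe_mulRight, hF τ ρ h3, Equiv.Perm.mul_apply, Equiv.Perm.mul_apply, h1, h2]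

theorem image_cls {n : ℕ} {τ0 τ : Equiv.Perm (Fin n)} {D : Finset (Fin n)} (h : τ ∈ cls τ0 D) :
    D.image τ = D.image τ0 :=
  Finset.image_congr fun x hx => mem_cls.1 h x hx

theorem step {n : ℕ} {Q D : Finset (Fin n)} (τ0 : Equiv.Perm (Fin n)) {u w : Fin n}
    (F : Equiv.Perm (Fin n) → ℝ) (f : Fin n → Fin n → ℝ) (B : ℝ)
    (hD : ∀ x ∈ D, x ∉ Q) (hF : ∀ τ ρ : Equiv.Perm (Fin n), (∀ x, x ∉ Q → ρ x = x) →
      F (τ * ρ) = F τ)
    (hF0 : ∀ τ, 0 ≤ F τ) (hf : ∀ x y, 0 ≤ f x y)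
    (hB : ∑ x ∈ (D.image τ0)ᶜ, ∑ y ∈ (D.image τ0)ᶜ, f x y ≤ B)
    (hu : u ∈ Q) (hw : w ∈ Q) (huw : u ≠ w) :
    ((Q.card : ℝ) * Q.card - Q.card) * ∑ τ ∈ cls τ0 D, F τ * f (τ u) (τ w)
      ≤ B * ∑ τ ∈ cls τ0 D, F τ := by
  have h1 : ((Q.card : ℝ) * Q.card - Q.card) * ∑ τ ∈ cls τ0 D, F τ * f (τ u) (τ w)
      = ∑ ab ∈ Q.offDiag, ∑ τ ∈ cls τ0 D, F τ * f (τ ab.1) (τ ab.2) := by
    have h2 : ∀ ab ∈ Q.offDiag, ∑ τ ∈ cls τ0 D, F τ * f (τ ab.1) (τ ab.2)
        = ∑ τ ∈ cls τ0 D, F τ * f (τ u) (τ w) := by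
      intro ab hab
      rw [Finset.mem_offDiag] at hab
      exact exch τ0 F f hD hF hu hw hab.1 hab.2.1 huw hab.2.2
    rw [Finset.sum_congr rfl h2, Finset.sum_const, Finset.offDiag_card, nsmul_eq_mul]
    congr 1
    rw [Nat.cast_sub (Nat.le_mul_self _), Nat.cast_mul]
  rw [h1, Finset.sum_comm, Finset.mul_sum]
  refine Finset.sum_le_sum fun τ hτ => ?_
  rw [← Finset.mul_sum, mul_comm B]
  refine mul_le_mul_of_nonneg_left ?_ (hF0 τ)
  refine le_trans ?_ hB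
  rw [← Finset.sum_product']
  have h3 : ∑ ab ∈ Q.offDiag, f (τ ab.1) (τ ab.2)
      = ∑ xy ∈ Q.offDiag.image (fun ab => (τ ab.1, τ ab.2)), f xy.1 xy.2 := by
    rw [Finset.sum_image]
    intro ab _ ab' _ h
    simp only [Prod.mk.injEq, EmbeddingLike.apply_eq_iff_eq] at h
    exact Prod.ext h.1 h.2
  rw [h3]
  refine Finset.sum_le_sum_of_subset_of_nonneg ?_ (fun xy _ _ => hf _ _)
  intro xy hxy
  rw [Finset.mem_image] at hxy
  obtain ⟨ab, hab, rfl⟩ := hxy
  rw [Finset.mem_offDiag] at hab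
  have key : ∀ a ∈ Q, τ a ∈ (D.image τ0)ᶜ := by
    intro a ha
    rw [Finset.mem_compl, ← image_cls hτ, Finset.mem_image]
    rintro ⟨x, hx, hxa⟩
    rw [EmbeddingLike.apply_eq_iff_eq] at hxa
    exact hD x hx (hxa ▸ ha)
  rw [Finset.mem_product]
  exact ⟨key _ hab.1, key _ hab.2.1⟩

theorem num {n L c d : ℕ} (hn : 1000 ≤ n) (hL : 100 * (L + 1) ≤ n) (hd : 100 * d ≤ n)
    (hc : n - d - 2 * L ≤ c) :
    3 / 4 * (((n - d : ℕ) : ℝ)) ^ 2 ≤ 4 / 5 * ((c : ℝ) * c - c) ∧ 0 < (c : ℝ) * c - c := by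
  obtain ⟨m, hm⟩ : ∃ m, m = n - d := ⟨_, rfl⟩
  rw [← hm]
  have h1 : 99 * n ≤ 100 * m := by omega
  have h2 : 97 * m + 99 ≤ 99 * c := by omega
  have h3 : (97 : ℝ) * m + 99 ≤ 99 * c := by exact_mod_cast h2
  have h4 : (990 : ℝ) ≤ m := by
    have : 990 ≤ m := by omega
    exact_mod_cast this
  have h5 : (97 / 99 : ℝ) * m ≤ c - 1 := by linarith
  have h6 : (97 / 99 : ℝ) * m ≤ c := by linarith
  have h7 : (97 / 99 : ℝ) * m * ((97 / 99 : ℝ) * m) ≤ c * (c - 1) :=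
    mul_le_mul h6 h5 (by positivity) (by linarith)
  have h8 : (0 : ℝ) < (m : ℝ) ^ 2 := by positivity
  constructor
  · nlinarith
  · nlinarith

theorem g_seq : G_SEQ := by
  intro n L
  induction L with
  | zero =>
    intro D τ0 u w f _ _ _ _ _ _ _ _ _ _
    simp
  | succ L ih =>
    intro D τ0 u w f hn hL hDn hu hw huw huD hwD hf hsum
    have ih' := ih D τ0 (fun i => u i.castSucc) (fun i => w i.castSucc) f hn (by omega) hDn
      (fun i j h => Fin.castSucc_injective L (hu h)) (fun i j h => Fin.castSucc_injective L (hw h))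
      (fun i j => huw _ _) (fun i => huD _) (fun i => hwD _) hf hsum
    set F : Equiv.Perm (Fin n) → ℝ := fun τ => ∏ l : Fin L, f (τ (u l.castSucc)) (τ (w l.castSucc))
      with hFdef
    have hprod : ∀ τ : Equiv.Perm (Fin n), ∏ l : Fin (L + 1), f (τ (u l)) (τ (w l))
        = F τ * f (τ (u (Fin.last L))) (τ (w (Fin.last L))) := fun τ => Fin.prod_univ_castSucc _
    simp only [hprod]
    set U : Finset (Fin n) := D ∪ (univ.image (fun i : Fin L => u i.castSucc)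
      ∪ univ.image (fun i : Fin L => w i.castSucc)) with hU
    have hUcard : U.card ≤ D.card + 2 * L := by
      have h1 : (univ.image (fun i : Fin L => u i.castSucc)).card ≤ L := by
        refine Finset.card_image_le.trans ?_
        rw [Finset.card_univ, Fintype.card_fin]
      have h2 : (univ.image (fun i : Fin L => w i.castSucc)).card ≤ L := by
        refine Finset.card_image_le.trans ?_
        rw [Finset.card_univ, Fintype.card_fin]
      have h3 := Finset.card_union_le D (univ.image (fun i : Fin L => u i.castSucc)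
        ∪ univ.image (fun i : Fin L => w i.castSucc))
      have h4 := Finset.card_union_le (univ.image (fun i : Fin L => u i.castSucc))
        (univ.image (fun i : Fin L => w i.castSucc))
      rw [← hU] at h3
      omega
    have hQcard : (Uᶜ).card = n - U.card := by
      rw [Finset.card_compl, Fintype.card_fin]
    have hmemU : ∀ x, x ∈ U ↔ x ∈ D ∨ (∃ i : Fin L, u i.castSucc = x) ∨
        ∃ i : Fin L, w i.castSucc = x := by
      intro x
      rw [hU, Finset.mem_union, Finset.mem_union, Finset.mem_image, Finset.mem_image]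
      simp
    have hulQ : u (Fin.last L) ∈ Uᶜ := by
      rw [Finset.mem_compl, hmemU]
      rintro (h | ⟨i, h⟩ | ⟨i, h⟩)
      · exact huD _ h
      · exact (Fin.castSucc_lt_last i).ne (hu h)
      · exact huw _ _ h.symm
    have hwlQ : w (Fin.last L) ∈ Uᶜ := by
      rw [Finset.mem_compl, hmemU]
      rintro (h | ⟨i, h⟩ | ⟨i, h⟩)
      · exact hwD _ h
      · exact huw _ _ h
      · exact (Fin.castSucc_lt_last i).ne (hw h)
    have hstep := step (Q := Uᶜ) (D := D) τ0 F f (3 / 4 * (((D.image τ0)ᶜ).card : ℝ) ^ 2)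
      (fun x hx => by
        rw [Finset.mem_compl, not_not, hmemU]
        exact Or.inl hx)
      (fun τ ρ hρ => by
        rw [hFdef]
        refine Finset.prod_congr rfl fun l _ => ?_
        rw [Equiv.Perm.mul_apply, Equiv.Perm.mul_apply, hρ (u l.castSucc), hρ (w l.castSucc)]
        · rw [Finset.mem_compl, not_not, hmemU]
          exact Or.inr (Or.inr ⟨l, rfl⟩)
        · rw [Finset.mem_compl, not_not, hmemU]
          exact Or.inr (Or.inl ⟨l, rfl⟩))
      (fun τ => Finset.prod_nonneg fun l _ => hf _ _) hf hsum hulQ hwlQ (huw _ _)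
    have hcardD : ((D.image τ0)ᶜ).card = n - D.card := by
      rw [Finset.card_compl, Fintype.card_fin, Finset.card_image_of_injective _ τ0.injective]
    rw [hcardD] at hstep
    obtain ⟨n1, n2⟩ := num (c := (Uᶜ).card) hn hL hDn (by omega)
    have hcls : (0 : ℝ) ≤ (4 / 5 : ℝ) ^ L * (cls τ0 D).card := by positivity
    have hFsum : ∑ τ ∈ cls τ0 D, F τ ≤ (4 / 5 : ℝ) ^ L * (cls τ0 D).card := ih'
    have h5 : (((Uᶜ).card : ℝ) * (Uᶜ).card - (Uᶜ).card) *
        ∑ τ ∈ cls τ0 D, F τ * f (τ (u (Fin.last L))) (τ (w (Fin.last L)))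
        ≤ (((Uᶜ).card : ℝ) * (Uᶜ).card - (Uᶜ).card) *
          ((4 / 5 : ℝ) ^ (L + 1) * (cls τ0 D).card) := by
      refine hstep.trans ?_
      calc 3 / 4 * (((n - D.card : ℕ) : ℝ)) ^ 2 * ∑ τ ∈ cls τ0 D, F τ
          ≤ 3 / 4 * (((n - D.card : ℕ) : ℝ)) ^ 2 * ((4 / 5 : ℝ) ^ L * (cls τ0 D).card) :=
            mul_le_mul_of_nonneg_left hFsum (by positivity)
        _ ≤ 4 / 5 * (((Uᶜ).card : ℝ) * (Uᶜ).card - (Uᶜ).card) *
            ((4 / 5 : ℝ) ^ L * (cls τ0 D).card) := mul_le_mul_of_nonneg_right n1 hcls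
        _ = _ := by ring
    exact le_of_mul_le_mul_left h5 n2

end Pool.Agent.Helper86.PF
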